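import Mathlib
import Pool.Agent.H548.BL.Cnt

set_option autoImplicit false

/-! Module R (combinatorial part): Moebius inversion for the vectors of `lat w` in a box. -/

namespace Pool.Agent.T6.H52.BA

open Finset
open Pool.Agent.H548.WM (ht bx mem_bx Rep le_ht le_ht' ht_le exists_ht)
open Pool.Agent.H548.BL (lat mem_lat)

theorem sum_mu (n : ℕ) :
    ∑ d ∈ n.divisors, ArithmeticFunction.moebius d = if n = 1 then 1 else 0 := by
  rw [← ArithmeticFunction.coe_mul_zeta_apply, ArithmeticFunction.moebius_mul_coe_zeta,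
    ArithmeticFunction.one_apply]

/-- The greatest common divisor of the coordinates. -/
def gd {N : ℕ} (v : Fin N → ℤ) : ℕ := (univ.gcd v).natAbs

theorem dvd_gd {N : ℕ} {v : Fin N → ℤ} {d : ℕ} : d ∣ gd v ↔ ∀ i, (d : ℤ) ∣ v i := by
  unfold gd
  rw [← Int.natCast_dvd, Finset.dvd_gcd_iff]
  simp

theorem gd_ne {N : ℕ} {v : Fin N → ℤ} (hv : v ≠ 0) : gd v ≠ 0 := by
  intro h
  apply hv
  unfold gd at h
  rw [Int.natAbs_eq_zero, Finset.gcd_eq_zero_iff] at h
  funext i
  exact h i (mem_univ i)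

theorem gd_le {N : ℕ} {v : Fin N → ℤ} (hv : v ≠ 0) : gd v ≤ ht v := by
  obtain ⟨i, hi⟩ : ∃ i, v i ≠ 0 := by
    by_contra hc
    push Not at hc
    exact hv (funext hc)
  have h1 : gd v ∣ (v i).natAbs := by
    rw [← Int.natCast_dvd]
    exact (dvd_gd.1 dvd_rfl) i
  exact (Nat.le_of_dvd (Int.natAbs_pos.2 hi) h1).trans (le_ht v i)

theorem gd_one {N : ℕ} {v : Fin N → ℤ} : gd v = 1 ↔ univ.gcd v = 1 := by
  unfold gd
  constructor
  · intro h
    have h1 : 0 ≤ univ.gcd v := Int.nonneg_of_normalize_eq_self Finset.normalize_gcd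
    omega
  · intro h
    rw [h]
    rfl

theorem gd_neg {N : ℕ} (v : Fin N → ℤ) : gd (-v) = gd v := by
  apply Nat.dvd_antisymm
  · rw [dvd_gd]
    intro i
    have := (dvd_gd (v := -v) (d := gd (-v))).1 dvd_rfl i
    simpa using this
  · rw [dvd_gd]
    intro i
    have := (dvd_gd (v := v) (d := gd v)).1 dvd_rfl i
    simpa using this

theorem ht_neg {N : ℕ} (v : Fin N → ℤ) : ht (-v) = ht v := by
  unfold ht
  congr 1
  funext i
  simp

theorem ht_zero {N : ℕ} : ht (0 : Fin N → ℤ) = 0 := by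
  have := ht_le (v := (0 : Fin N → ℤ)) (X := 0) (fun i => by simp)
  omega

theorem ht_eq_zero {N : ℕ} {v : Fin N → ℤ} (h : ht v = 0) : v = 0 := by
  funext i
  have := le_ht v i
  rw [h] at this
  simpa using this

theorem rep_or' {m : ℕ} {v : Fin m → ℤ} (h : gd v = 1) : Rep v ∨ Rep (-v) := by
  classical
  have hne : (Finset.univ.filter fun i => v i ≠ 0).Nonempty := by
    by_contra hc
    rw [Finset.not_nonempty_iff_eq_empty] at hc
    have hv : v = 0 := by
      funext i
      by_contra hi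
      have hi' : v i ≠ 0 := hi
      have : i ∈ Finset.univ.filter fun i => v i ≠ 0 := by simp [hi']
      rw [hc] at this
      simp at this
    have h2 : univ.gcd v = 0 := by
      rw [Finset.gcd_eq_zero_iff]
      intro i _
      rw [hv]
      rfl
    unfold gd at h
    rw [h2] at h
    simp at h
  set i := (Finset.univ.filter fun i => v i ≠ 0).min' hne with hi
  have hi0 : v i ≠ 0 := (mem_filter.1 (Finset.min'_mem _ hne)).2
  have hlt : ∀ j < i, v j = 0 := by
    intro j hj
    by_contra hc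
    have : i ≤ j := Finset.min'_le _ j (by simp [hc])
    omega
  rcases lt_or_gt_of_ne hi0 with h1 | h1
  · right
    refine ⟨gd_one.1 (by rw [gd_neg]; exact h), i, ?_, ?_⟩
    · simpa using h1
    · intro j hj
      simp [hlt j hj]
  · left
    exact ⟨gd_one.1 h, i, h1, hlt⟩

theorem rep_neg' {m : ℕ} {v : Fin m → ℤ} (h : Rep v) (h' : Rep (-v)) : False := by
  obtain ⟨-, i, hi, hi'⟩ := h
  obtain ⟨-, j, hj, hj'⟩ := h'
  rcases lt_trichotomy i j with h1 | h1 | h1
  · have := hj' i h1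
    simp only [Pi.neg_apply, neg_eq_zero] at this
    omega
  · rw [h1] at hi
    simp only [Pi.neg_apply] at hj
    omega
  · have := hi' j h1
    simp only [Pi.neg_apply] at hj
    omega

theorem rep_ne {m : ℕ} {v : Fin m → ℤ} (h : Rep v) : v ≠ 0 := by
  obtain ⟨-, i, hi, -⟩ := h
  intro hv
  rw [hv] at hi
  simp at hi

open Classical in
/-- Nonzero vectors of the lattice in a box. -/
noncomputable def nz {k N : ℕ} (w : Fin k → Fin N → ℤ) (Y : ℕ) : Finset (Fin N → ℤ) :=
  (bx N Y).filter fun v => v ∈ lat w ∧ v ≠ 0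

theorem mem_nz {k N : ℕ} {w : Fin k → Fin N → ℤ} {Y : ℕ} {v : Fin N → ℤ} :
    v ∈ nz w Y ↔ ht v ≤ Y ∧ v ∈ lat w ∧ v ≠ 0 := by
  classical
  unfold nz
  rw [mem_filter, mem_bx]

theorem lat_smul {k N : ℕ} {w : Fin k → Fin N → ℤ} {v : Fin N → ℤ} {d : ℤ} (hd : d ≠ 0) :
    d • v ∈ lat w ↔ v ∈ lat w := by
  rw [mem_lat, mem_lat]
  constructor
  · intro h i
    have := h i
    rw [dotProduct_smul, smul_eq_mul] at this
    exact (mul_eq_zero.1 this).resolve_left hd
  · intro h i
    rw [dotProduct_smul, h i, smul_zero]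

open Classical in
theorem nz_div {k N : ℕ} (w : Fin k → Fin N → ℤ) (Y d : ℕ) (hd : 1 ≤ d) :
    (nz w (Y / d)).card = ((nz w Y).filter fun v => d ∣ gd v).card := by
  have hd0 : (d : ℤ) ≠ 0 := by exact_mod_cast (by omega : d ≠ 0)
  refine Finset.card_bij (fun v _ => (d : ℤ) • v) ?_ ?_ ?_
  · intro v hv
    rw [mem_nz] at hv
    rw [mem_filter, mem_nz]
    refine ⟨⟨?_, (lat_smul hd0).2 hv.2.1, ?_⟩, ?_⟩
    · apply ht_le
      intro i
      rw [Pi.smul_apply, smul_eq_mul, abs_mul, Nat.abs_cast]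
      have h1 := le_ht' v i
      have h2 : d * ht v ≤ Y := by
        calc d * ht v ≤ d * (Y / d) := Nat.mul_le_mul_left d hv.1
          _ ≤ Y := Nat.mul_div_le Y d
      calc (d : ℤ) * |v i| ≤ d * (ht v : ℤ) := by
            apply mul_le_mul_of_nonneg_left h1 (by positivity)
        _ ≤ Y := by exact_mod_cast h2
    · exact smul_ne_zero hd0 hv.2.2
    · rw [dvd_gd]
      intro i
      rw [Pi.smul_apply, smul_eq_mul]
      exact dvd_mul_right _ _
  · intro u _ v _ h
    exact smul_right_injective _ hd0 h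
  · intro v hv
    rw [mem_filter, mem_nz] at hv
    obtain ⟨⟨hv1, hv2, hv3⟩, hv4⟩ := hv
    rw [dvd_gd] at hv4
    choose u hu using hv4
    have huv : (d : ℤ) • u = v := by
      funext i
      rw [Pi.smul_apply, smul_eq_mul]
      exact (hu i).symm
    refine ⟨u, ?_, huv⟩
    rw [mem_nz]
    refine ⟨?_, ?_, ?_⟩
    · apply ht_le
      intro i
      have h1 := le_ht v i
      rw [hu i, Int.natAbs_mul, Int.natAbs_natCast] at h1
      rw [Int.abs_eq_natAbs]
      have h2 : (u i).natAbs ≤ Y / d := by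
        rw [Nat.le_div_iff_mul_le (by omega), mul_comm]
        exact h1.trans hv1
      exact_mod_cast h2
    · rw [← huv] at hv2
      exact (lat_smul hd0).1 hv2
    · rintro rfl
      apply hv3
      rw [← huv, smul_zero]

open Classical in
theorem card_gd_one {k N : ℕ} (w : Fin k → Fin N → ℤ) (Y : ℕ) :
    ((nz w Y).filter fun v => gd v = 1).card =
      2 * ((bx N Y).filter fun v => v ∈ lat w ∧ Rep v).card := by
  set R := (bx N Y).filter fun v => v ∈ lat w ∧ Rep v with hR
  have h1 : (nz w Y).filter (fun v => gd v = 1) = R ∪ R.image (fun v => -v) := by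
    ext v
    rw [mem_filter, mem_nz, mem_union, mem_image, hR]
    simp only [mem_filter, mem_bx]
    constructor
    · rintro ⟨⟨h1, h2, h3⟩, h4⟩
      rcases rep_or' h4 with h5 | h5
      · exact Or.inl ⟨h1, h2, h5⟩
      · exact Or.inr ⟨-v, ⟨by rwa [ht_neg], neg_mem h2, h5⟩, neg_neg v⟩
    · rintro (⟨h1, h2, h3⟩ | ⟨u, ⟨h1, h2, h3⟩, rfl⟩)
      · exact ⟨⟨h1, h2, rep_ne h3⟩, gd_one.2 h3.1⟩
      · exact ⟨⟨by rwa [ht_neg], neg_mem h2, neg_ne_zero.2 (rep_ne h3)⟩,
          by rw [gd_neg]; exact gd_one.2 h3.1⟩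
  rw [h1, card_union_of_disjoint, card_image_of_injective _ neg_injective]
  · ring
  · rw [Finset.disjoint_left]
    intro v hv hv'
    rw [mem_image] at hv'
    obtain ⟨u, hu, rfl⟩ := hv'
    rw [hR, mem_filter] at hu hv
    exact rep_neg' hu.2.2 hv.2.2

open Classical in
theorem moeb {k N : ℕ} (w : Fin k → Fin N → ℤ) (Y : ℕ) :
    ∑ d ∈ Icc 1 Y, ArithmeticFunction.moebius d * ((nz w (Y / d)).card : ℤ) =
      2 * (((bx N Y).filter fun v => v ∈ lat w ∧ Rep v).card : ℤ) := by
  have h1 : ∀ d ∈ Icc 1 Y, ArithmeticFunction.moebius d * ((nz w (Y / d)).card : ℤ) =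
      ∑ v ∈ nz w Y, if d ∣ gd v then ArithmeticFunction.moebius d else 0 := by
    intro d hd
    rw [nz_div w Y d (mem_Icc.1 hd).1, ← Finset.sum_filter, Finset.sum_const, nsmul_eq_mul,
      mul_comm]
  rw [Finset.sum_congr rfl h1, Finset.sum_comm]
  have h2 : ∀ v ∈ nz w Y, (∑ d ∈ Icc 1 Y, if d ∣ gd v then ArithmeticFunction.moebius d else 0) =
      if gd v = 1 then 1 else 0 := by
    intro v hv
    rw [mem_nz] at hv
    rw [← sum_mu, ← Finset.sum_filter]
    apply Finset.sum_congr _ fun _ _ => rfl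
    ext d
    rw [mem_filter, mem_Icc, Nat.mem_divisors]
    have hg := gd_ne hv.2.2
    constructor
    · rintro ⟨-, h⟩
      exact ⟨h, hg⟩
    · rintro ⟨h, -⟩
      exact ⟨⟨Nat.pos_of_dvd_of_pos h (by omega),
        (Nat.le_of_dvd (by omega) h).trans ((gd_le hv.2.2).trans hv.1)⟩, h⟩
  rw [Finset.sum_congr rfl h2, Finset.sum_boole]
  have h3 := card_gd_one w Y
  exact_mod_cast h3

open Classical in
/-- The number of all the vectors in the box is one more. -/
theorem card_all {k N : ℕ} (w : Fin k → Fin N → ℤ) (Y : ℕ) :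
    ((bx N Y).filter (· ∈ lat w)).card = (nz w Y).card + 1 := by
  have h1 : (bx N Y).filter (· ∈ lat w) = insert 0 (nz w Y) := by
    ext v
    rw [mem_insert, mem_nz, mem_filter, mem_bx]
    constructor
    · rintro ⟨h1, h2⟩
      by_cases h : v = 0
      · exact Or.inl h
      · exact Or.inr ⟨h1, h2, h⟩
    · rintro (rfl | ⟨h1, h2, -⟩)
      · exact ⟨by rw [ht_zero]; omega, zero_mem _⟩
      · exact ⟨h1, h2⟩
  rw [h1, card_insert_of_notMem]
  rw [mem_nz]
  rintro ⟨-, -, h⟩
  exact h rfl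

end Pool.Agent.T6.H52.BA
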