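import Mathlib
import Pool.Agent.T6.H52.BA.R2

set_option autoImplicit false

/-! Module R (lattice part): the lattice of the integer vectors in the space `orth w`. -/

namespace Pool.Agent.T6.H52.BA

open Finset Module
open Pool.Agent.H548.WM (ht bx mem_bx Rep le_ht le_ht' ht_le exists_ht)
open Pool.Agent.H548.BL (lat mem_lat rc orth mem_orth finrank_orth rc_dot norm_rc)

theorem rc_mem {k N : ℕ} {w : Fin k → Fin N → ℤ} {v : Fin N → ℤ} (hv : v ∈ lat w) :
    rc v ∈ orth w := by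
  rw [mem_orth]
  intro i
  rw [rc_dot, mem_lat.1 hv i]
  simp

theorem rc_inj {N : ℕ} {u v : Fin N → ℤ} (h : rc u = rc v) : u = v := by
  funext i
  have := congrFun h i
  unfold rc at this
  exact_mod_cast this

/-- The map of the lattice to the space. -/
noncomputable def phi {k N : ℕ} (w : Fin k → Fin N → ℤ) : lat w →+ orth w where
  toFun v := ⟨rc v.1, rc_mem v.2⟩
  map_zero' := by
    ext i
    simp [rc]
  map_add' := by
    intro u v
    ext i
    simp [rc]

/-- The lattice. -/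
noncomputable def LL {k N : ℕ} (w : Fin k → Fin N → ℤ) : Submodule ℤ (orth w) :=
  LinearMap.range (phi w).toIntLinearMap

theorem mem_LL {k N : ℕ} {w : Fin k → Fin N → ℤ} {e : orth w} :
    e ∈ LL w ↔ ∃ v : Fin N → ℤ, v ∈ lat w ∧ rc v = e.1 := by
  unfold LL
  rw [LinearMap.mem_range]
  constructor
  · rintro ⟨v, rfl⟩
    exact ⟨v.1, v.2, rfl⟩
  · rintro ⟨v, hv, h⟩
    exact ⟨⟨v, hv⟩, Subtype.ext h⟩

theorem norm_LL {k N : ℕ} {w : Fin k → Fin N → ℤ} {e : orth w} {v : Fin N → ℤ}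
    (h : rc v = e.1) : ‖e‖ = ht v := by
  rw [Submodule.coe_norm, ← h, norm_rc]

instance disc {k N : ℕ} (w : Fin k → Fin N → ℤ) : DiscreteTopology (LL w) := by
  apply discreteTopology_of_isOpen_singleton_zero
  rw [Metric.isOpen_singleton_iff]
  refine ⟨1, one_pos, fun e he => ?_⟩
  obtain ⟨v, hv, hve⟩ := mem_LL.1 e.2
  rw [dist_zero_right] at he
  have h1 : ‖e‖ = ht v := (show ‖e‖ = ‖(e : orth w)‖ from rfl).trans (norm_LL hve)
  have he' : (ht v : ℝ) < 1 := lt_of_eq_of_lt h1.symm he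
  have h2 : ht v = 0 := by
    have : ht v < 1 := by exact_mod_cast he'
    omega
  have h3 := ht_eq_zero h2
  apply Subtype.ext
  apply Subtype.ext
  rw [← hve, h3]
  funext i
  simp [rc]

/-- The integer vectors as the kernel of a linear map. -/
noncomputable def WW {k N : ℕ} (w : Fin k → Fin N → ℤ) : (Fin N → ℤ) →ₗ[ℤ] (Fin k → ℤ) :=
  Matrix.mulVecLin (Matrix.of w)

theorem mem_ker {k N : ℕ} {w : Fin k → Fin N → ℤ} {v : Fin N → ℤ} :
    v ∈ LinearMap.ker (WW w) ↔ v ∈ lat w := by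
  rw [LinearMap.mem_ker, mem_lat, WW, Matrix.mulVecLin_apply]
  constructor
  · intro h i
    exact congrFun h i
  · intro h
    funext i
    exact h i

theorem finrank_ker {k N : ℕ} (w : Fin k → Fin N → ℤ) :
    N - k ≤ finrank ℤ (LinearMap.ker (WW w)) := by
  have h1 := Submodule.finrank_quotient_add_finrank (LinearMap.ker (WW w))
  rw [(WW w).quotKerEquivRange.finrank_eq] at h1
  have h2 : finrank ℤ (LinearMap.range (WW w)) ≤ k := by
    have := Submodule.finrank_le (LinearMap.range (WW w))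
    simpa using this
  rw [finrank_fintype_fun_eq_card, Fintype.card_fin] at h1
  omega

/-- Many linearly independent vectors. -/
theorem exists_li {k N : ℕ} (w : Fin k → Fin N → ℤ) :
    ∃ b : Fin (N - k) → Fin N → ℤ, (∀ i, b i ∈ lat w) ∧ LinearIndependent ℤ b := by
  set m := finrank ℤ (LinearMap.ker (WW w)) with hm
  have h1 := finrank_ker w
  let B : Basis (Fin m) ℤ (LinearMap.ker (WW w)) := Module.finBasis ℤ _
  let f : Fin (N - k) → Fin m := Fin.castLE h1
  refine ⟨fun i => (B (f i) : Fin N → ℤ), fun i => mem_ker.1 (B (f i)).2, ?_⟩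
  have h2 := B.linearIndependent
  have h3 : LinearIndependent ℤ fun i => (B i : Fin N → ℤ) :=
    h2.map' (LinearMap.ker (WW w)).subtype (Submodule.ker_subtype _)
  exact h3.comp f (Fin.castLE_injective h1)

theorem exists_liR {k N : ℕ} (w : Fin k → Fin N → ℤ) :
    ∃ b : Fin (N - k) → orth w, (∀ i, b i ∈ LL w) ∧ LinearIndependent ℝ b := by
  obtain ⟨b, hb, hli⟩ := exists_li w
  have h1 : LinearIndependent ℝ (fun i => rc (b i)) :=
    (linearIndependent_algebraMap_comp_iff (R := ℤ) (S := ℝ) (v := b)).2 hli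
  refine ⟨fun i => ⟨rc (b i), rc_mem (hb i)⟩, fun i => mem_LL.2 ⟨b i, hb i, rfl⟩, ?_⟩
  exact LinearIndependent.of_comp (orth w).subtype h1

theorem finrank_eq {k N : ℕ} (w : Fin k → Fin N → ℤ) (hw : LinearIndependent ℤ w) :
    finrank ℝ (orth w) = N - k := by
  apply le_antisymm
  · have := finrank_orth hw
    rwa [Fintype.card_fin] at this
  · obtain ⟨b, -, hb⟩ := exists_liR w
    have := hb.fintype_card_le_finrank
    rwa [Fintype.card_fin] at this

theorem zlat {k N : ℕ} (w : Fin k → Fin N → ℤ) (hw : LinearIndependent ℤ w) :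
    IsZLattice ℝ (LL w) := by
  refine ⟨?_⟩
  obtain ⟨b, hb, hli⟩ := exists_liR w
  have h1 : Submodule.span ℝ (Set.range b) = ⊤ :=
    hli.span_eq_top_of_card_eq_finrank' (by rw [finrank_eq w hw, Fintype.card_fin])
  rw [eq_top_iff, ← h1]
  apply Submodule.span_mono
  rintro _ ⟨i, rfl⟩
  exact hb i

open Classical in
theorem ncard_LL {k N : ℕ} (w : Fin k → Fin N → ℤ) {t : ℝ} (ht0 : 0 ≤ t) :
    {v : orth w | v ∈ LL w ∧ ‖v‖ ≤ t}.ncard = ((bx N ⌊t⌋₊).filter (· ∈ lat w)).card := by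
  rw [← Set.ncard_coe_finset]
  symm
  refine Set.ncard_congr (fun v hv => ⟨rc v, rc_mem (mem_filter.1 (mem_coe.1 hv)).2⟩) ?_ ?_ ?_
  · intro v hv
    rw [mem_coe, mem_filter, mem_bx] at hv
    refine ⟨mem_LL.2 ⟨v, hv.2, rfl⟩, ?_⟩
    rw [norm_LL rfl]
    exact (Nat.le_floor_iff ht0).1 hv.1
  · intro u v hu hv h
    exact rc_inj (Subtype.mk.inj h)
  · rintro e ⟨h1, h2⟩
    obtain ⟨v, hv, hve⟩ := mem_LL.1 h1
    refine ⟨v, ?_, Subtype.ext hve⟩
    rw [mem_coe, mem_filter, mem_bx]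
    refine ⟨?_, hv⟩
    rw [norm_LL hve] at h2
    exact Nat.le_floor h2

end Pool.Agent.T6.H52.BA
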